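import Pool.Agent.Run7.h325.RSI.Stm

set_option autoImplicit false

namespace Run7.h554.RSI

open MeasureTheory Filter Topology Metric
open Pool.Agent.Run7.h325.RSI

lemma Zf_eq : Zf = {x : E2 | x 0 ∈ Set.range ((↑) : ℤ → ℝ) ∧ x 1 ∈ Set.range ((↑) : ℤ → ℝ)} := by
  ext x
  simp only [Zf, Set.mem_range, Set.mem_ofPred_eq]
  constructor
  · rintro ⟨p, rfl⟩
    exact ⟨⟨p.1, by simp [ze]⟩, ⟨p.2, by simp [ze]⟩⟩
  · rintro ⟨⟨a, ha⟩, ⟨b, hb⟩⟩
    refine ⟨(a, b), ?_⟩
    ext i
    fin_cases i
    · simpa [ze] using ha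
    · simpa [ze] using hb

lemma Zf_closed : IsClosed Zf := by
  rw [Zf_eq]
  have h : IsClosed (Set.range ((↑) : ℤ → ℝ)) := Int.isClosedEmbedding_coe_real.isClosed_range
  have h0 : Continuous (fun x : E2 => x 0) := by fun_prop
  have h1 : Continuous (fun x : E2 => x 1) := by fun_prop
  exact (h.preimage h0).inter (h.preimage h1)

lemma Zf_ne : Zf.Nonempty := ⟨_, ⟨(0, 0), rfl⟩⟩

lemma bb_lip (x y : E2) (d : ℝ) (hd : 0 < d) (hx : d ≤ infDist x Zf) (hy : d ≤ infDist y Zf) :
    |bb x - bb y| ≤ dist x y / d := by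
  have hs : 0 < infDist x Zf := lt_of_lt_of_le hd hx
  have ht : 0 < infDist y Zf := lt_of_lt_of_le hd hy
  have key : ∀ s t D : ℝ, d ≤ s → d ≤ t → |s - t| ≤ D → Real.log t - Real.log s ≤ D / d := by
    intro s t D hs' ht' hD
    have s0 : 0 < s := lt_of_lt_of_le hd hs'
    have t0 : 0 < t := lt_of_lt_of_le hd ht'
    rw [← Real.log_div t0.ne' s0.ne']
    have h1 := Real.log_le_sub_one_of_pos (div_pos t0 s0)
    have h2 : t / s - 1 = (t - s) / s := by field_simp
    have h3 : (t - s) / s ≤ |s - t| / s := by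
      apply div_le_div_of_nonneg_right _ s0.le
      rw [abs_sub_comm]; exact le_abs_self _
    have h4 : |s - t| / s ≤ D / d := by
      exact div_le_div₀ (le_trans (abs_nonneg _) hD) hD hd hs'
    linarith
  have hst : |infDist x Zf - infDist y Zf| ≤ dist x y := by
    have := (lipschitz_infDist_pt Zf).dist_le_mul x y
    simpa [Real.dist_eq] using this
  have e : ∀ z : E2, 0 < infDist z Zf →
      Real.log (1 / (4 * infDist z Zf)) = - Real.log 4 - Real.log (infDist z Zf) := by
    intro z hz
    rw [one_div, Real.log_inv, Real.log_mul (by norm_num) hz.ne']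
    ring
  unfold bb
  calc |max 0 (Real.log (1 / (4 * infDist x Zf))) - max 0 (Real.log (1 / (4 * infDist y Zf)))|
      ≤ |Real.log (1 / (4 * infDist x Zf)) - Real.log (1 / (4 * infDist y Zf))| := by
        rw [max_comm 0, max_comm 0]
        exact abs_max_sub_max_le_abs _ _ _
    _ ≤ dist x y / d := by
        rw [e x hs, e y ht, abs_le]
        have h1 := key _ _ _ hx hy hst
        have h2 := key _ _ (dist x y) hy hx (by rw [abs_sub_comm]; exact hst)
        constructor <;> linarith

lemma inv_int (R : ℝ) : IntegrableOn (fun y : E2 => ‖y‖⁻¹) (ball 0 R) := by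
  have h := integrableOn_fun_norm_addHaar (volume : Measure E2) (f := fun r : ℝ => r⁻¹) (r := R)
  rw [h]
  have hf : Module.finrank ℝ E2 - 1 = 1 := by simp [E2]
  rw [hf]
  have : IntegrableOn (fun _ : ℝ => (1 : ℝ)) (Set.Ioo 0 R) := by
    apply integrableOn_const
    · simp
    · simp
  refine this.congr_fun ?_ measurableSet_Ioo
  intro r hr
  have : r ≠ 0 := hr.1.ne'
  simp [this]

lemma inv_int' (x : E2) (R : ℝ) : IntegrableOn (fun y : E2 => ‖x - y‖⁻¹) (ball x R) := by
  have h := inv_int R
  rw [← integrable_indicator_iff measurableSet_ball] at h ⊢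
  have := h.comp_sub_left x
  refine this.congr (Eventually.of_forall fun y => ?_)
  simp only [Set.indicator, mem_ball, dist_eq_norm, sub_zero]
  rw [norm_sub_rev y x]

theorem t_PV2 : S_BBP → S_FFP → S_PV2 := by
  intro hB hF m φ Ω M hm hφ hΩ hΩM
  obtain ⟨-, -, hbm, hb0, ⟨K, hK⟩, hbi⟩ := hB m φ hm hφ
  obtain ⟨hf1, hf2, hf0, -⟩ := hF m φ hm hφ
  set f := ff m φ with hfdef
  have hM : 0 ≤ M := le_trans (abs_nonneg _) (hΩM 0)
  have hfc : Continuous f := hf1.continuous
  have hfi : Integrable f := hfc.integrable_of_hasCompactSupport hf2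
  obtain ⟨Kf, hKf⟩ := hf2.exists_bound_of_continuous hfc
  have hae : ∀ᵐ x ∂(volume : Measure E2), x ∉ Zf := by
    have : Zf.Countable := Set.countable_range _
    exact this.ae_notMem _
  filter_upwards [hae] with x hx
  have hd0 : 0 < infDist x Zf := (Zf_closed.notMem_iff_infDist_pos Zf_ne).1 hx
  set d := infDist x Zf / 2 with hd
  have hdp : 0 < d := by positivity
  set g : E2 → ℝ := fun y => (bb x - bb y) * (Ω (‖x - y‖⁻¹ • (x - y)) / ‖x - y‖ ^ 2) * f y with hg
  have hgm : Measurable g := by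
    have h1 : Measurable (fun y : E2 => Ω (‖x - y‖⁻¹ • (x - y))) := by
      apply hΩ.comp
      fun_prop
    have h2 : Measurable f := hfc.measurable
    have h3 : Measurable (fun y : E2 => ‖x - y‖ ^ 2) := by fun_prop
    exact ((measurable_const.sub hbm).mul (h1.div h3)).mul h2
  set G : E2 → ℝ := fun y => (ball x d).indicator (fun y => (1 / d * M * Kf) * ‖x - y‖⁻¹) y +
    (|bb x| * |f y| + |bb y * f y|) * (M / d ^ 2) with hG
  have hGi : Integrable G := by
    apply Integrable.add
    · rw [integrable_indicator_iff measurableSet_ball]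
      exact (inv_int' x d).const_mul _
    · exact ((hfi.abs.const_mul _).add hbi.abs).mul_const _
  have hgG : ∀ y, ‖g y‖ ≤ G y := by
    intro y
    have hΩy := hΩM (‖x - y‖⁻¹ • (x - y))
    have hy2 : 0 ≤ (|bb x| * |f y| + |bb y * f y|) * (M / d ^ 2) := by positivity
    by_cases hxy : y ∈ ball x d
    · have h1 : |bb x - bb y| ≤ dist x y / d := by
        apply bb_lip x y d hdp
        · rw [hd]; linarith
        · have h2 : infDist x Zf ≤ infDist y Zf + dist x y := infDist_le_infDist_add_dist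
          have h3 : dist x y < d := by rw [dist_comm]; exact hxy
          linarith
      have h2 : ‖g y‖ ≤ (1 / d * M * Kf) * ‖x - y‖⁻¹ := by
        rw [hg]
        simp only [norm_mul, Real.norm_eq_abs, abs_div, abs_norm, abs_pow]
        by_cases h0 : ‖x - y‖ = 0
        · simp [h0]
        have h0' : 0 < ‖x - y‖ := lt_of_le_of_ne (norm_nonneg _) (Ne.symm h0)
        have h3 : |f y| ≤ Kf := hKf y
        have h4 : 0 ≤ Kf := le_trans (abs_nonneg _) h3
        rw [dist_eq_norm] at h1
        calc |bb x - bb y| * (|Ω (‖x - y‖⁻¹ • (x - y))| / ‖x - y‖ ^ 2) * |f y|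
            ≤ (‖x - y‖ / d) * (M / ‖x - y‖ ^ 2) * Kf := by gcongr
          _ = (1 / d * M * Kf) * ‖x - y‖⁻¹ := by field_simp
      rw [hG]
      simp only [Set.indicator_of_mem hxy]
      linarith
    · rw [hG]
      simp only [Set.indicator_of_notMem hxy, zero_add]
      have h3 : d ≤ ‖x - y‖ := by
        rw [mem_ball, not_lt, dist_comm, dist_eq_norm] at hxy
        exact hxy
      rw [hg]
      simp only [norm_mul, Real.norm_eq_abs, abs_div, abs_norm, abs_pow]
      have h4 : |Ω (‖x - y‖⁻¹ • (x - y))| / ‖x - y‖ ^ 2 ≤ M / d ^ 2 := by gcongr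
      have h5 : |bb x - bb y| * |f y| ≤ |bb x| * |f y| + |bb y| * |f y| := by
        rw [← add_mul]
        exact mul_le_mul_of_nonneg_right (abs_sub _ _) (abs_nonneg _)
      calc |bb x - bb y| * (|Ω (‖x - y‖⁻¹ • (x - y))| / ‖x - y‖ ^ 2) * |f y|
          = (|bb x - bb y| * |f y|) * (|Ω (‖x - y‖⁻¹ • (x - y))| / ‖x - y‖ ^ 2) := by ring
        _ ≤ (|bb x| * |f y| + |bb y| * |f y|) * (M / d ^ 2) := by gcongr
        _ = (|bb x| * |f y| + |bb y * f y|) * (M / d ^ 2) := by rw [abs_mul]
  have hms : ∀ ε : ℝ, MeasurableSet {y : E2 | ε < dist x y} := by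
    intro ε
    exact measurableSet_lt measurable_const (by fun_prop)
  have hcongr : ∀ ε : ℝ, ∫ y in {y : E2 | ε < dist x y}, g y =
      ∫ y, ({y : E2 | ε < dist x y}).indicator g y := by
    intro ε
    rw [integral_indicator (hms ε)]
  simp only [hcongr]
  apply tendsto_integral_filter_of_dominated_convergence G
  · exact Eventually.of_forall fun ε => (hgm.indicator (hms ε)).aestronglyMeasurable
  · refine Eventually.of_forall fun ε => Eventually.of_forall fun y => ?_
    exact le_trans (norm_indicator_le_norm_self _ _) (hgG y)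
  · exact hGi
  · refine Eventually.of_forall fun y => ?_
    by_cases hxy : x = y
    · have h0 : g y = 0 := by simp [hg, hxy]
      have : ∀ ε : ℝ, ({y : E2 | ε < dist x y}).indicator g y = 0 := by
        intro ε
        simp [Set.indicator, h0]
      change Tendsto (fun ε : ℝ => ({y : E2 | ε < dist x y}).indicator g y) (𝓝[>] 0) (𝓝 (g y))
      rw [h0]
      simp only [this]
      exact tendsto_const_nhds
    · have h0 : 0 < dist x y := dist_pos.2 hxy
      apply tendsto_const_nhds.congr'
      have : ∀ᶠ ε : ℝ in 𝓝[>] 0, ε < dist x y := by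
        apply mem_nhdsWithin_of_mem_nhds
        exact Iio_mem_nhds h0
      filter_upwards [this] with ε hε
      rw [Set.indicator_of_mem]
      exact hε

end Run7.h554.RSI
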